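import Pool.Agent.Lib_MP_e4b855_nt.Reflection

namespace Pool.Agent.Lib_MP_e4b855_nt.Even

open Finset

theorem g_image (X : Finset ℤ) (t : ℤ) {z : ℂ} (hz : z ≠ 0) :
    g (X.image fun a => t - a) z = z ^ t * g X z⁻¹ := by
  unfold g
  rw [Finset.sum_image (fun a _ b _ h => by simpa using h), Finset.mul_sum]
  apply Finset.sum_congr rfl
  intro a _
  rw [zpow_sub₀ hz, inv_zpow]
  rfl

/-- If two different sets of `2 ^ k` integers, `k` even, have the same pair sums, then one is a
reflection of the other. -/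
theorem eq_reflection {k : ℕ} (hk : Even k) {X Y : Finset ℤ} (hX : X.card = 2 ^ k)
    (hY : Y.card = 2 ^ k) (hne : X ≠ Y) (h : pairSums X = pairSums Y) :
    ∃ t : ℤ, Y = X.image fun a => t - a := by
  obtain ⟨μ, t, hμ, hD⟩ := exists_sign hne h
  have hμ' : μ = k + 1 := by
    rw [hX, hY, ← two_mul, ← pow_succ'] at hμ
    exact Nat.pow_right_injective le_rfl hμ
  have hodd : Odd μ := by rw [hμ']; exact hk.add_one
  rw [hodd.neg_one_pow] at hD
  refine ⟨t, ?_⟩
  have hfin : {z : ℂ | g X z = g Y z}.Finite := by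
    by_contra hinf
    exact hne (eq_of_g_eq hinf fun z hz _ => hz)
  refine eq_of_g_eq (hfin.infinite_compl) ?_
  intro z hz hz0
  have hDz : g X z - g Y z ≠ 0 := by
    intro h0
    exact hz (sub_eq_zero.mp h0)
  rw [g_image X t hz0]
  have h1 := functional_eq h hz0
  have h2 := functional_eq h (inv_ne_zero hz0)
  have h3 := hD z hz0
  have h4 := hD (z ^ 2) (pow_ne_zero 2 hz0)
  rw [← inv_pow, h2, h1, h3] at h4
  have hzt : z ^ t ≠ 0 := zpow_ne_zero _ hz0
  have h5 : ((z ^ 2) ^ t) = z ^ t * z ^ t := by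
    rw [← zpow_natCast, ← zpow_mul, ← zpow_add₀ hz0]; congr 1; push_cast; ring
  rw [h5] at h4
  have h6 : z ^ t * (g X z⁻¹ + g Y z⁻¹) = g X z + g Y z := by
    field_simp at h4
    rw [one_div] at h4
    exact neg_inj.mp h4
  have h8 : z ^ t * (g X z⁻¹ - g Y z⁻¹) = -(g X z - g Y z) := by
    rw [h3]; field_simp
  linear_combination (-1 / 2 : ℂ) * h6 - (1 / 2 : ℂ) * h8

theorem two_mul_sum_eq {k : ℕ} (hk2 : 2 ≤ k) {X Y : Finset ℤ} (hX : X.card = 2 ^ k)
    (hY : Y.card = 2 ^ k) (h : pairSums X = pairSums Y) {t : ℤ}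
    (ht : Y = X.image fun a => t - a) : 2 * ∑ x ∈ X, x = 2 ^ k * t := by
  have h1 := sum_pairSums X
  have h2 := sum_pairSums Y
  rw [h, h2, hX, hY] at h1
  have hpos : ((2 ^ k : ℕ) : ℤ) - 1 ≠ 0 := by
    have : (2 : ℕ) ^ 2 ≤ 2 ^ k := Nat.pow_le_pow_right (by norm_num) hk2
    have h3 : (4 : ℤ) ≤ ((2 ^ k : ℕ) : ℤ) := by exact_mod_cast this
    intro h0
    omega
  have h3 : ∑ y ∈ Y, y = ∑ x ∈ X, x := mul_left_cancel₀ hpos h1
  have h4 : ∑ y ∈ Y, y = 2 ^ k * t - ∑ x ∈ X, x := by
    rw [ht, Finset.sum_image (fun a _ b _ h => by simpa using h), Finset.sum_sub_distrib,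
      Finset.sum_const, hX]
    simp
  linarith

/-- at most two -/
theorem at_most_two {k : ℕ} (hk : Even k) (hk2 : 2 ≤ k) {X Y Z : Finset ℤ}
    (hX : X.card = 2 ^ k) (hY : Y.card = 2 ^ k) (hZ : Z.card = 2 ^ k)
    (hXY : pairSums X = pairSums Y) (hXZ : pairSums X = pairSums Z) (hne : X ≠ Y)
    (hne' : X ≠ Z) : Y = Z := by
  obtain ⟨t, ht⟩ := eq_reflection hk hX hY hne hXY
  obtain ⟨t', ht'⟩ := eq_reflection hk hX hZ hne' hXZ
  have h1 := two_mul_sum_eq hk2 hX hY hXY ht
  have h2 := two_mul_sum_eq hk2 hX hZ hXZ ht'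
  have h3 : (2 : ℤ) ^ k * t = 2 ^ k * t' := by rw [← h1, ← h2]
  have h4 : t = t' := mul_left_cancel₀ (by positivity) h3
  rw [ht, ht', h4]

/-! ### two sets exist (known) -/

theorem pairSums_union {U V : Finset ℤ} (h : Disjoint U V) :
    pairSums (U ∪ V) = pairSums U + pairSums V +
      (U.val.bind fun u => V.val.map fun v => u + v) := by
  induction U using Finset.induction_on with
  | empty => simp [pairSums_empty]
  | insert x s hx ih =>
    rw [Finset.disjoint_insert_left] at h
    have hx' : x ∉ s ∪ V := by simp [hx, h.1]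
    rw [Finset.insert_union, pairSums_insert hx', ih h.2, pairSums_insert hx,
      Finset.insert_val_of_notMem hx, Multiset.cons_bind]
    have hd : (s ∪ V).val = s.val + V.val := by
      rw [← Finset.disjUnion_eq_union s V h.2, Finset.disjUnion_val]
    rw [hd, Multiset.map_add]
    abel

theorem pairSums_shift (U : Finset ℤ) (t : ℤ) :
    pairSums (U.image fun a => a + t) = (pairSums U).map fun s => s + 2 * t := by
  induction U using Finset.induction_on with
  | empty => simp [pairSums_empty]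
  | insert x s hx ih =>
    have hx' : x + t ∉ s.image fun a => a + t := by simpa using hx
    rw [Finset.image_insert, pairSums_insert hx', ih, pairSums_insert hx, Multiset.map_add]
    congr 1
    rw [Finset.image_val_of_injOn (fun a _ b _ h => by simpa using h), Multiset.map_map,
      Multiset.map_map]
    apply Multiset.map_congr rfl
    intro a _
    simp only [Function.comp_apply]; ring

theorem exists_two (k : ℕ) : ∃ X Y : Finset ℤ, X ≠ Y ∧ X.card = 2 ^ (k + 1) ∧
    Y.card = 2 ^ (k + 1) ∧ pairSums X = pairSums Y := by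
  induction k with
  | zero => exact ⟨{0, 3}, {1, 2}, by decide, by decide, by decide, by decide⟩
  | succ k ih =>
    obtain ⟨X, Y, hne, hX, hY, h⟩ := ih
    obtain ⟨b, hb⟩ : ∃ b : ℤ, ∀ a ∈ X ∪ Y, a ≤ b := by
      obtain ⟨b, hb⟩ := (X ∪ Y).finite_toSet.bddAbove
      exact ⟨b, fun a ha => hb (by simpa using ha)⟩
    obtain ⟨c, hc⟩ : ∃ c : ℤ, ∀ a ∈ X ∪ Y, c ≤ a := by
      obtain ⟨c, hc⟩ := (X ∪ Y).finite_toSet.bddBelow
      exact ⟨c, fun a ha => hc (by simpa using ha)⟩
    set t : ℤ := b - c + 1 with ht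
    have hdis : ∀ U V : Finset ℤ, U ⊆ X ∪ Y → V ⊆ X ∪ Y →
        Disjoint U (V.image fun a => a + t) := by
      intro U V hU hV
      rw [Finset.disjoint_left]
      intro a ha ha'
      obtain ⟨v, hv, rfl⟩ := Finset.mem_image.mp ha'
      have h1 := hb _ (hU ha)
      have h2 := hc _ (hV hv)
      omega
    have hXs : X ⊆ X ∪ Y := Finset.subset_union_left
    have hYs : Y ⊆ X ∪ Y := Finset.subset_union_right
    have hcard : ∀ U : Finset ℤ, (U.image fun a => a + t).card = U.card := fun U =>
      Finset.card_image_of_injective _ (fun a b h => by simpa using h)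
    refine ⟨X ∪ Y.image fun a => a + t, Y ∪ X.image fun a => a + t, ?_, ?_, ?_, ?_⟩
    · intro heq
      apply hne
      have key : ∀ U V : Finset ℤ, U ⊆ X ∪ Y → V ⊆ X ∪ Y →
          (U ∪ V.image fun a => a + t).filter (fun a => a ≤ b) = U := by
        intro U V hU hV
        ext a
        simp only [Finset.mem_filter, Finset.mem_union, Finset.mem_image]
        constructor
        · rintro ⟨ha | ⟨v, hv, rfl⟩, hab⟩
          · exact ha
          · have := hc _ (hV hv); omega
        · intro ha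
          exact ⟨Or.inl ha, hb _ (hU ha)⟩
      rw [← key X Y hXs hYs, heq, key Y X hYs hXs]
    · rw [Finset.card_union_of_disjoint (hdis X Y hXs hYs), hcard, hX, hY]; ring
    · rw [Finset.card_union_of_disjoint (hdis Y X hYs hXs), hcard, hX, hY]; ring
    · rw [pairSums_union (hdis X Y hXs hYs), pairSums_union (hdis Y X hYs hXs), pairSums_shift,
        pairSums_shift, h]
      congr 1
      rw [Finset.image_val_of_injOn (fun a _ b _ h => by simpa using h),
        Finset.image_val_of_injOn (fun a _ b _ h => by simpa using h)]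
      simp only [Multiset.map_map]
      rw [Multiset.bind_map_comm]
      apply Multiset.bind_congr
      intro a _
      apply Multiset.map_congr rfl
      intro b _
      simp only [Function.comp_apply]; ring

end Pool.Agent.Lib_MP_e4b855_nt.Even
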