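import Mathlib

namespace Pool.Agent.Lib_MP_e4b855_nt

open Finset

/-- The multiset `Σ(X)` of the sums `x + y` over all unordered pairs of distinct elements of `X`
(each sum counted with multiplicity): the sums of the two-element subsets of `X`. -/
def pairSums (X : Finset ℤ) : Multiset ℤ :=
  (X.powersetCard 2).val.map fun s => ∑ x ∈ s, x

theorem pairSums_eq (X : Finset ℤ) :
    pairSums X = (Multiset.powersetCard 2 X.val).map Multiset.sum := by
  unfold pairSums
  rw [← Finset.map_val_val_powersetCard, Multiset.map_map]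
  apply Multiset.map_congr rfl
  intro s _
  exact (Finset.sum_val s).symm

theorem pairSums_insert {x : ℤ} {s : Finset ℤ} (h : x ∉ s) :
    pairSums (insert x s) = pairSums s + s.val.map (fun a => x + a) := by
  rw [pairSums_eq, pairSums_eq, Finset.insert_val_of_notMem h, Multiset.powersetCard_cons,
    Multiset.map_add, Multiset.map_map, Multiset.powersetCard_one, Multiset.map_map]
  simp

theorem pairSums_empty : pairSums ∅ = 0 := by
  rw [pairSums_eq]; rfl

theorem sum_pairSums (X : Finset ℤ) :
    (pairSums X).sum = ((X.card : ℤ) - 1) * ∑ x ∈ X, x := by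
  induction X using Finset.induction_on with
  | empty => simp [pairSums_empty]
  | insert x s h ih =>
    rw [pairSums_insert h, Multiset.sum_add, ih, Finset.sum_insert h, Finset.card_insert_of_notMem h]
    have : (s.val.map (fun a => x + a)).sum = s.card * x + ∑ a ∈ s, a := by
      have := Finset.sum_add_distrib (s := s) (f := fun _ => x) (g := fun a => a)
      simp only [Finset.sum_const, nsmul_eq_mul] at this
      exact this
    rw [this]; push_cast; ring

/-- generating function evaluated at a complex number -/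
noncomputable def g (X : Finset ℤ) (z : ℂ) : ℂ := ∑ a ∈ X, z ^ a

theorem two_mul_sum_pairSums (X : Finset ℤ) {z : ℂ} (hz : z ≠ 0) :
    2 * ((pairSums X).map (fun s => z ^ s)).sum = g X z ^ 2 - g X (z ^ 2) := by
  induction X using Finset.induction_on with
  | empty => simp [pairSums_empty, g]
  | insert x s h ih =>
    rw [pairSums_insert h, Multiset.map_add, Multiset.sum_add, mul_add, ih]
    have h1 : ((s.val.map (fun a => x + a)).map (fun s => z ^ s)).sum = z ^ x * g s z := by
      rw [Multiset.map_map]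
      unfold g
      rw [Finset.mul_sum]
      change (∑ a ∈ s, z ^ (x + a)) = _
      apply Finset.sum_congr rfl
      intro a _
      rw [zpow_add₀ hz]
    have h2 : g (insert x s) z = z ^ x + g s z := by
      unfold g; rw [Finset.sum_insert h]
    have h3 : g (insert x s) (z ^ 2) = (z ^ x) ^ 2 + g s (z ^ 2) := by
      unfold g; rw [Finset.sum_insert h, ← zpow_natCast, ← zpow_natCast, ← zpow_mul, ← zpow_mul]
      congr 2; ring
    rw [h1, h2, h3]; ring

/-- the polynomial `∑ X^(a+N)` -/
noncomputable def pol (N : ℤ) (X : Finset ℤ) : Polynomial ℤ :=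
  ∑ a ∈ X, Polynomial.X ^ (a + N).toNat

theorem eval_pol {N : ℤ} {X : Finset ℤ} (hN : ∀ a ∈ X, 0 ≤ a + N) {z : ℂ} (hz : z ≠ 0) :
    Polynomial.aeval z (pol N X) = z ^ N * g X z := by
  unfold pol g
  rw [map_sum, Finset.mul_sum]
  apply Finset.sum_congr rfl
  intro a ha
  rw [map_pow, Polynomial.aeval_X, ← zpow_add₀ hz, ← zpow_natCast, Int.toNat_of_nonneg (hN a ha)]
  congr 1; ring

theorem coeff_pol {N : ℤ} {X : Finset ℤ} (hN : ∀ a ∈ X, 0 ≤ a + N) (j : ℕ) :
    (pol N X).coeff j = if (j : ℤ) - N ∈ X then 1 else 0 := by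
  unfold pol
  rw [Polynomial.finsetSum_coeff]
  simp only [Polynomial.coeff_X_pow]
  have : ∀ a ∈ X, (if j = (a + N).toNat then (1 : ℤ) else 0) = if (j : ℤ) - N = a then 1 else 0 := by
    intro a ha
    have h1 := hN a ha
    by_cases h : (j : ℤ) - N = a
    · rw [if_pos h, if_pos]; omega
    · rw [if_neg h, if_neg]; omega
  rw [Finset.sum_congr rfl this, Finset.sum_ite_eq]

theorem pol_injective {N : ℤ} {X Y : Finset ℤ} (hX : ∀ a ∈ X, 0 ≤ a + N)
    (hY : ∀ a ∈ Y, 0 ≤ a + N) (h : pol N X = pol N Y) : X = Y := by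
  ext a
  by_cases ha : 0 ≤ a + N
  · have h1 := coeff_pol hX (a + N).toNat
    have h2 := coeff_pol hY (a + N).toNat
    rw [h, h2] at h1
    rw [Int.toNat_of_nonneg ha] at h1
    simp only [add_sub_cancel_right] at h1
    by_cases p : a ∈ X <;> by_cases q : a ∈ Y <;> simp_all
  · constructor
    · intro h; exact absurd (hX a h) ha
    · intro h; exact absurd (hY a h) ha

/-- two finite sets of integers whose generating functions agree at infinitely many points are
equal -/
theorem eq_of_g_eq {X Y : Finset ℤ} {S : Set ℂ} (hS : S.Infinite)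
    (h : ∀ z ∈ S, z ≠ 0 → g X z = g Y z) : X = Y := by
  obtain ⟨N, hN⟩ : ∃ N : ℤ, ∀ a ∈ X ∪ Y, 0 ≤ a + N := by
    obtain ⟨b, hb⟩ := (X ∪ Y).finite_toSet.bddBelow
    refine ⟨-b, fun a ha => ?_⟩
    have := hb (by simpa using ha : a ∈ ((X ∪ Y : Finset ℤ) : Set ℤ))
    omega
  have hX : ∀ a ∈ X, 0 ≤ a + N := fun a ha => hN a (Finset.mem_union_left _ ha)
  have hY : ∀ a ∈ Y, 0 ≤ a + N := fun a ha => hN a (Finset.mem_union_right _ ha)
  apply pol_injective hX hY
  have key : (pol N X).map (Int.castRingHom ℂ) = (pol N Y).map (Int.castRingHom ℂ) := by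
    apply Polynomial.eq_of_infinite_eval_eq
    apply (hS.sdiff (Set.finite_singleton (0 : ℂ))).mono
    rintro z ⟨hz, hz0⟩
    have hz0 : z ≠ 0 := by simpa using hz0
    have e1 := eval_pol hX hz0
    have e2 := eval_pol hY hz0
    rw [h z hz hz0, ← e2] at e1
    simp only [Set.mem_ofPred_eq]
    rw [Polynomial.eval_map, Polynomial.eval_map]
    simpa [Polynomial.aeval_def] using e1
  exact Polynomial.map_injective _ (RingHom.injective_int _) key

end Pool.Agent.Lib_MP_e4b855_nt
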