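import Pool.Agent.Lib_MP_e4b855_nt.PairSums

namespace Pool.Agent.Lib_MP_e4b855_nt

open Finset Polynomial

theorem g_one (X : Finset ℤ) : g X 1 = X.card := by
  unfold g; simp

theorem functional_eq {X Y : Finset ℤ} (h : pairSums X = pairSums Y) {z : ℂ} (hz : z ≠ 0) :
    g X (z ^ 2) - g Y (z ^ 2) = (g X z - g Y z) * (g X z + g Y z) := by
  have h1 := two_mul_sum_pairSums X hz
  have h2 := two_mul_sum_pairSums Y hz
  rw [h] at h1
  linear_combination h1 - h2

/-- the difference of the generating functions of two different sets is a monomial times a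
polynomial with nonzero constant coefficient -/
theorem exists_poly {X Y : Finset ℤ} (hne : X ≠ Y) :
    ∃ (w : ℤ) (Q : ℤ[X]), Q.coeff 0 ≠ 0 ∧
      ∀ z : ℂ, z ≠ 0 → g X z - g Y z = z ^ w * aeval z Q := by
  obtain ⟨N, hN⟩ : ∃ N : ℤ, ∀ a ∈ X ∪ Y, 0 ≤ a + N := by
    obtain ⟨b, hb⟩ := (X ∪ Y).finite_toSet.bddBelow
    refine ⟨-b, fun a ha => ?_⟩
    have := hb (by simpa using ha : a ∈ ((X ∪ Y : Finset ℤ) : Set ℤ))
    omega
  have hX : ∀ a ∈ X, 0 ≤ a + N := fun a ha => hN a (Finset.mem_union_left _ ha)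
  have hY : ∀ a ∈ Y, 0 ≤ a + N := fun a ha => hN a (Finset.mem_union_right _ ha)
  have hP : pol N X - pol N Y ≠ 0 := by
    intro h0
    exact hne (pol_injective hX hY (sub_eq_zero.mp h0))
  obtain ⟨Q, hQ, hdvd⟩ := exists_eq_pow_rootMultiplicity_mul_and_not_dvd _ hP 0
  rw [C_0, sub_zero] at hQ hdvd
  set v := rootMultiplicity 0 (pol N X - pol N Y)
  refine ⟨v - N, Q, fun h0 => hdvd (X_dvd_iff.mpr h0), fun z hz => ?_⟩
  have e1 := eval_pol hX hz
  have e2 := eval_pol hY hz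
  have e3 : aeval z (pol N X - pol N Y) = z ^ v * aeval z Q := by
    rw [hQ]; simp
  rw [map_sub, e1, e2] at e3
  have hzN : z ^ N ≠ 0 := zpow_ne_zero _ hz
  rw [zpow_sub₀ hz, zpow_natCast]
  field_simp
  linear_combination e3

/-- all complex roots lie on the unit circle, since they are closed under squaring -/
theorem norm_eq_one {Q : ℤ[X]} (h0 : Q.coeff 0 ≠ 0)
    (hsq : ∀ z : ℂ, z ≠ 0 → aeval z Q = 0 → aeval (z ^ 2) Q = 0) {z : ℂ}
    (hz : aeval z Q = 0) : ‖z‖ = 1 := by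
  have hQ : Q ≠ 0 := by rintro rfl; simp at h0
  have hne : ∀ w : ℂ, aeval w Q = 0 → w ≠ 0 := by
    rintro w hw rfl
    rw [aeval_def, eval₂_at_zero] at hw
    simp at hw
    exact h0 hw
  have hroots : ∀ j : ℕ, aeval (z ^ 2 ^ j) Q = 0 := by
    intro j
    induction j with
    | zero => simpa using hz
    | succ j ih =>
      rw [pow_succ, pow_mul]
      exact hsq _ (hne _ ih) ih
  obtain ⟨i, j, hij, heq⟩ : ∃ i j : ℕ, i < j ∧ z ^ 2 ^ i = z ^ 2 ^ j := by
    by_contra hcon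
    push Not at hcon
    have hinj : Function.Injective fun j : ℕ => z ^ 2 ^ j := by
      intro i j hij
      rcases lt_trichotomy i j with h | h | h
      · exact absurd hij (hcon i j h)
      · exact h
      · exact absurd hij.symm (hcon j i h)
    have hmaps : ∀ j : ℕ, z ^ 2 ^ j ∈ ((Q.aroots ℂ).toFinset : Set ℂ) := by
      intro j
      simp only [Finset.mem_coe, Multiset.mem_toFinset]
      rw [mem_aroots]
      exact ⟨hQ, hroots j⟩
    have hinf := (Set.infinite_range_of_injective hinj).mono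
      (t := ((Q.aroots ℂ).toFinset : Set ℂ)) (by rintro _ ⟨j, rfl⟩; exact hmaps j)
    exact hinf (Finset.finite_toSet _)
  have hz0 : z ≠ 0 := hne z hz
  have hpos : 0 < ‖z‖ := norm_pos_iff.mpr hz0
  have h1 : ‖z‖ ^ 2 ^ i = ‖z‖ ^ 2 ^ j := by
    rw [← norm_pow, ← norm_pow, heq]
  have hlt : 2 ^ i < 2 ^ j := Nat.pow_lt_pow_right (by norm_num) hij
  by_contra hne1
  exact absurd (pow_right_injective₀ hpos hne1 h1) hlt.ne


/-- a polynomial with integer coefficients all of whose complex roots lie on the unit circle is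
self-reciprocal up to a sign -/
theorem self_reciprocal {Q : ℤ[X]} (hQ : Q ≠ 0) (hroot : ∀ z : ℂ, aeval z Q = 0 → ‖z‖ = 1) :
    ∃ c : ℂ, ∀ z : ℂ, z ≠ 0 →
      aeval z⁻¹ Q = c * (z⁻¹) ^ Q.natDegree * aeval z Q := by
  set P : ℂ[X] := Q.map (Int.castRingHom ℂ) with hP
  have hPeval : ∀ z : ℂ, aeval z Q = P.eval z := by
    intro z; rw [hP, eval_map, aeval_def]; rfl
  have hP0 : P ≠ 0 := (Polynomial.map_ne_zero_iff (RingHom.injective_int _)).mpr hQ
  have hdeg : P.natDegree = Q.natDegree :=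
    natDegree_map_eq_of_injective (RingHom.injective_int _) Q
  have hcard : Multiset.card P.roots = P.natDegree :=
    (IsAlgClosed.splits P).natDegree_eq_card_roots.symm
  have hprod := C_leadingCoeff_mul_prod_multiset_X_sub_C hcard
  have heval : ∀ z : ℂ, P.eval z = P.leadingCoeff * (P.roots.map fun α => z - α).prod := by
    intro z
    conv_lhs => rw [← hprod]
    rw [eval_mul, eval_C, eval_multiset_prod, Multiset.map_map]
    simp
  have hlc : (starRingEnd ℂ) P.leadingCoeff = P.leadingCoeff := by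
    rw [hP, leadingCoeff_map_of_injective (RingHom.injective_int _)]
    simp
  have hconj : ∀ z : ℂ, (starRingEnd ℂ) (P.eval ((starRingEnd ℂ) z)) = P.eval z := by
    intro z
    rw [← hPeval, ← hPeval, aeval_def, aeval_def, hom_eval₂, Complex.conj_conj]
    congr 1
    exact RingHom.ext_int _ _
  refine ⟨(P.roots.map fun α => -α).prod, fun z hz => ?_⟩
  rw [hPeval, hPeval, heval z⁻¹, ← hdeg, ← hcard]
  have e1 : ∀ α ∈ P.roots, z⁻¹ - α = (-α) * z⁻¹ * (z - (starRingEnd ℂ) α) := by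
    intro α hα
    have h1 : ‖α‖ = 1 := hroot α (by rw [hPeval]; exact (mem_roots hP0).mp hα)
    have h2 : α * (starRingEnd ℂ) α = 1 := by
      rw [Complex.mul_conj, Complex.normSq_eq_norm_sq, h1]; simp
    field_simp
    linear_combination (-1 : ℂ) * h2
  rw [Multiset.map_congr rfl e1, Multiset.prod_map_mul, Multiset.prod_map_mul,
    Multiset.map_const', Multiset.prod_replicate]
  have e2 : P.leadingCoeff * (P.roots.map fun α => z - (starRingEnd ℂ) α).prod = P.eval z := by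
    rw [← hconj z, heval, map_mul, hlc, map_multiset_prod, Multiset.map_map]
    simp
  rw [← e2]; ring


theorem sq_eq_one {Q : ℤ[X]} (hQ : Q ≠ 0) {c : ℂ}
    (hc : ∀ z : ℂ, z ≠ 0 → aeval z⁻¹ Q = c * (z⁻¹) ^ Q.natDegree * aeval z Q) : c ^ 2 = 1 := by
  have hfin : {z : ℂ | aeval z Q = 0}.Finite := by
    have h1 : Q.map (Int.castRingHom ℂ) ≠ 0 :=
      (Polynomial.map_ne_zero_iff (RingHom.injective_int _)).mpr hQ
    apply (finite_setOfPred_isRoot h1).subset
    intro z hz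
    simp only [Set.mem_ofPred_eq] at hz ⊢
    rw [IsRoot.def, eval_map]
    exact hz
  obtain ⟨z, hz⟩ : ∃ z : ℂ, z ∉ ({z : ℂ | aeval z Q = 0} ∪ {0}) :=
    (hfin.union (Set.finite_singleton 0)).infinite_compl.nonempty
  simp only [Set.mem_union, Set.mem_ofPred_eq, Set.mem_singleton_iff, not_or] at hz
  obtain ⟨hz1, hz0⟩ := hz
  have h1 := hc z hz0
  have h2 := hc z⁻¹ (inv_ne_zero hz0)
  rw [inv_inv, h1] at h2
  have h3 : z ^ Q.natDegree * (z⁻¹) ^ Q.natDegree = 1 := by
    rw [← mul_pow, mul_inv_cancel₀ hz0, one_pow]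
  have h4 : (c ^ 2 - 1) * aeval z Q = 0 := by
    linear_combination -h2 - c ^ 2 * aeval z Q * h3
  rcases mul_eq_zero.mp h4 with h5 | h5
  · exact sub_eq_zero.mp h5
  · exact absurd h5 hz1

/-- comparison of values at `1` of two functions that agree off `1` and are continuous at `1` -/
theorem eq_at_one {f₁ f₂ : ℂ → ℂ} (h1 : ContinuousAt f₁ 1) (h2 : ContinuousAt f₂ 1)
    (h : ∀ z : ℂ, z ≠ 0 → z ≠ 1 → f₁ z = f₂ z) : f₁ 1 = f₂ 1 := by
  have l1 : Filter.Tendsto f₁ (nhdsWithin 1 {1}ᶜ) (nhds (f₁ 1)) :=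
    h1.tendsto.mono_left nhdsWithin_le_nhds
  have l2 : Filter.Tendsto f₂ (nhdsWithin 1 {1}ᶜ) (nhds (f₂ 1)) :=
    h2.tendsto.mono_left nhdsWithin_le_nhds
  refine tendsto_nhds_unique_of_eventuallyEq l1 l2 ?_
  have e0 : ∀ᶠ z : ℂ in nhdsWithin 1 {1}ᶜ, z ≠ 0 := by
    apply Filter.Eventually.filter_mono nhdsWithin_le_nhds
    exact isOpen_ne.eventually_mem one_ne_zero
  filter_upwards [e0, self_mem_nhdsWithin] with z hz hz1
  exact h z hz hz1

/-- Main structural fact.  Let `X ≠ Y` have the same pair sums.  Then the difference of the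
generating functions is reciprocal up to the sign `(-1)^μ`, where `2 ^ μ = |X| + |Y|`. -/
theorem exists_sign {X Y : Finset ℤ} (hne : X ≠ Y) (h : pairSums X = pairSums Y) :
    ∃ (μ : ℕ) (t : ℤ), 2 ^ μ = X.card + Y.card ∧
      ∀ z : ℂ, z ≠ 0 → g X z⁻¹ - g Y z⁻¹ = (-1) ^ μ * (z ^ t)⁻¹ * (g X z - g Y z) := by
  obtain ⟨w, Q, hQ0, hD⟩ := exists_poly hne
  have hQ : Q ≠ 0 := by rintro rfl; simp at hQ0
  have hfe : ∀ z : ℂ, z ≠ 0 → z ^ w * aeval (z ^ 2) Q = aeval z Q * (g X z + g Y z) := by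
    intro z hz
    have h1 := functional_eq h hz
    rw [hD z hz, hD (z ^ 2) (pow_ne_zero 2 hz)] at h1
    have h2 : (z ^ 2) ^ w = z ^ w * z ^ w := by
      rw [← zpow_natCast, ← zpow_mul, ← zpow_add₀ hz]; congr 1; push_cast; ring
    rw [h2] at h1
    have h3 : z ^ w ≠ 0 := zpow_ne_zero _ hz
    apply mul_left_cancel₀ h3
    linear_combination h1
  have hroot : ∀ z : ℂ, aeval z Q = 0 → ‖z‖ = 1 := by
    intro z hz
    refine norm_eq_one hQ0 ?_ hz
    intro z hz hzQ
    have h1 := hfe z hz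
    rw [hzQ, zero_mul] at h1
    rcases mul_eq_zero.mp h1 with h2 | h2
    · exact absurd h2 (zpow_ne_zero _ hz)
    · exact h2
  obtain ⟨c, hc⟩ := self_reciprocal hQ hroot
  obtain ⟨E, hE, hEdvd⟩ := exists_eq_pow_rootMultiplicity_mul_and_not_dvd Q hQ 1
  set μ := rootMultiplicity 1 Q
  have hE1 : aeval (1 : ℂ) E ≠ 0 := by
    intro h0
    apply hEdvd
    rw [dvd_iff_isRoot, IsRoot.def]
    have h1 : aeval ((algebraMap ℤ ℂ) 1) E = algebraMap ℤ ℂ (aeval (1 : ℤ) E) :=
      aeval_algebraMap_apply ℂ (1 : ℤ) E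
    rw [map_one, h0] at h1
    have h2 : aeval (1 : ℤ) E = 0 := by
      have : (algebraMap ℤ ℂ) (aeval (1 : ℤ) E) = algebraMap ℤ ℂ 0 := by rw [← h1, map_zero]
      exact (algebraMap ℤ ℂ).injective_int this
    simpa using h2
  have hQE : ∀ z : ℂ, aeval z Q = (z - 1) ^ μ * aeval z E := by
    intro z; conv_lhs => rw [hE]
    simp
  have hcontE : ∀ u : ℂ → ℂ, ContinuousAt u 1 → ContinuousAt (fun z => aeval (u z) E) 1 := by
    intro u hu
    exact (Polynomial.continuous_aeval E).continuousAt.comp hu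
  have hcontz : ∀ e : ℤ, ContinuousAt (fun z : ℂ => z ^ e) 1 := fun e =>
    continuousAt_zpow₀ 1 e (Or.inl one_ne_zero)
  have hcontg : ∀ Z : Finset ℤ, ContinuousAt (fun z : ℂ => g Z z) 1 := by
    intro Z
    unfold g
    exact tendsto_finsetSum _ fun a _ => hcontz a
  have hμ : (2 : ℂ) ^ μ = g X 1 + g Y 1 := by
    have h1 := eq_at_one (f₁ := fun z => (z + 1) ^ μ * aeval (z ^ 2) E * z ^ w)
      (f₂ := fun z => aeval z E * (g X z + g Y z)) ?_ ?_ ?_
    · simp only [one_pow, one_zpow, mul_one] at h1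
      rw [show (1 : ℂ) + 1 = 2 by norm_num] at h1
      apply mul_left_cancel₀ hE1
      linear_combination h1
    · exact (((continuousAt_id.add continuousAt_const).pow _).mul
        (hcontE _ (continuousAt_id.pow 2))).mul (hcontz w)
    · exact (hcontE _ continuousAt_id).mul ((hcontg X).add (hcontg Y))
    · intro z hz hz1
      have h1 := hfe z hz
      rw [hQE, hQE] at h1
      have h2 : (z - 1) ^ μ ≠ 0 := pow_ne_zero _ (sub_ne_zero.mpr hz1)
      apply mul_left_cancel₀ h2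
      have h3 : (z ^ 2 - 1) ^ μ = (z - 1) ^ μ * (z + 1) ^ μ := by rw [← mul_pow]; ring
      rw [h3] at h1
      linear_combination h1
  have hcμ : c = (-1) ^ μ := by
    have h1 := eq_at_one (f₁ := fun z => c * (z ^ (-(Q.natDegree : ℤ))) * aeval z E)
      (f₂ := fun z => (-1) ^ μ * z ^ (-(μ : ℤ)) * aeval z⁻¹ E) ?_ ?_ ?_
    · simp only [one_zpow, mul_one, inv_one] at h1
      exact mul_right_cancel₀ hE1 h1
    · exact (continuousAt_const.mul (hcontz _)).mul (hcontE _ continuousAt_id)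
    · exact (continuousAt_const.mul (hcontz _)).mul (hcontE _ (continuousAt_inv₀ one_ne_zero))
    · intro z hz hz1
      have h1 := hc z hz
      rw [hQE, hQE] at h1
      have h2 : (z - 1) ^ μ ≠ 0 := pow_ne_zero _ (sub_ne_zero.mpr hz1)
      apply mul_left_cancel₀ h2
      have h3 : (z⁻¹ - 1) ^ μ = (-1) ^ μ * (z ^ μ)⁻¹ * (z - 1) ^ μ := by
        rw [← inv_pow, ← mul_pow, ← mul_pow]; congr 1; field_simp; ring
      rw [h3] at h1
      simp only [zpow_neg, zpow_natCast]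
      rw [inv_pow] at h1
      linear_combination -h1
  refine ⟨μ, 2 * w + Q.natDegree, ?_, ?_⟩
  · rw [g_one, g_one] at hμ
    exact_mod_cast hμ
  · intro z hz
    rw [hD z hz, hD z⁻¹ (inv_ne_zero hz), hc z hz, ← hcμ, zpow_add₀ hz, zpow_natCast,
      inv_zpow, inv_pow, two_mul, zpow_add₀ hz]
    field_simp

end Pool.Agent.Lib_MP_e4b855_nt
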